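import Pool.Agent.MWGR.StmtsA

/-!
# Row mwgr RT5: change of labels and totals
-/

set_option autoImplicit false

namespace Pool.Agent.MWGR.H98

open Pool.Agent.Helper14_MV Pool.Agent.Helper2_MV Pool.Agent.MVO Pool.Agent.MWL Pool.Agent.MWS
  Pool.Agent.MWH Pool.Agent.MWGR

theorem split_uniq {t : ℕ} : ∀ {A B A' B' : List ℕ}, A ++ t :: B = A' ++ t :: B' → t ∉ A →
    t ∉ A' → A = A' ∧ B = B'
  | [], B, [], B', h, _, _ => by
    simp only [List.nil_append, List.cons.injEq, true_and] at h
    exact ⟨rfl, h⟩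
  | [], B, c :: A', B', h, _, h2 => by
    simp only [List.nil_append, List.cons_append, List.cons.injEq] at h
    exact absurd (h.1 ▸ List.mem_cons_self) h2
  | c :: A, B, [], B', h, h1, _ => by
    simp only [List.nil_append, List.cons_append, List.cons.injEq] at h
    exact absurd (h.1 ▸ List.mem_cons_self) h1
  | c :: A, B, c' :: A', B', h, h1, h2 => by
    simp only [List.cons_append, List.cons.injEq] at h
    have h3 := split_uniq h.2 (fun h' => h1 (List.mem_cons_of_mem _ h'))
      (fun h' => h2 (List.mem_cons_of_mem _ h'))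
    exact ⟨by rw [h.1, h3.1], h3.2⟩

theorem pre_mem' {T1 T2 : List ℕ} {s t : ℕ} (hnd : (T1 ++ t :: T2).Nodup)
    (h : Pre (T1 ++ t :: T2) s t) : s ∈ T1 := by
  obtain ⟨U1, U2, U3, h1⟩ := h
  have h2 : T1 ++ t :: T2 = (U1 ++ s :: U2) ++ t :: U3 := by
    rw [h1]; simp
  have hn1 : t ∉ T1 := by
    intro h'
    have := List.nodup_append.1 hnd
    exact this.2.2 t h' t List.mem_cons_self rfl
  have hn2 : t ∉ U1 ++ s :: U2 := by
    intro h'
    rw [h2] at hnd
    have := List.nodup_append.1 hnd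
    exact this.2.2 t h' t List.mem_cons_self rfl
  have h3 := (split_uniq h2 hn1 hn2).1
  rw [h3]
  simp

/-- the realisation depends only on the labels and totals of the tokens -/
theorem real_congr {n : ℕ} {H : List ℕ} {Λ Λ' : ℕ → ℕ → ℕ} {N N' : ℕ → ℕ} :
    ∀ (T : List ℕ) (O : ℕ → Bool), (∀ a, 3 * a ∈ T → ∀ y ∈ H, Λ y a = Λ' y a) →
      (∀ y, 3 * y + 2 ∈ T → N y = N' y) → real n H Λ N O T = real n H Λ' N' O T
  | [], _, _, _ => rfl
  | t :: T, O, h1, h2 => by
    have ih := fun O' => real_congr (n := n) (H := H) (Λ := Λ) (Λ' := Λ') (N := N) (N' := N') T O'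
      (fun a ha => h1 a (List.mem_cons_of_mem _ ha)) (fun y hy => h2 y (List.mem_cons_of_mem _ hy))
    simp only [real]
    rw [ih]
    congr 1
    by_cases h0 : t % 3 = 0
    · rw [if_pos h0, if_pos h0]
      have ht : t = 3 * (t / 3) := by omega
      have h3 := h1 (t / 3) (by rw [← ht]; exact List.mem_cons_self)
      have h4 : ∀ (f g : ℕ → ℕ), (∀ y ∈ H, f y = g y) → GG (H.filter O) f = GG (H.filter O) g := by
        intro f g hfg
        unfold GG
        apply List.flatMap_congr
        intro y hy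
        rw [hfg y (List.mem_filter.1 hy).1]
      unfold outL
      rw [h4 (fun x => n + Λ x (t / 3)) (fun x => n + Λ' x (t / 3))
        (fun y hy => by simp only [h3 y hy]),
        h4 (fun x => n + (n - 1) * Λ x (t / 3)) (fun x => n + (n - 1) * Λ' x (t / 3))
        (fun y hy => by simp only [h3 y hy])]
    · rw [if_neg h0, if_neg h0]
      by_cases h1' : t % 3 = 1
      · rw [if_pos h1', if_pos h1']
      · rw [if_neg h1', if_neg h1']
        have ht : t = 3 * (t / 3) + 2 := by omega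
        rw [h2 (t / 3) (by rw [← ht]; exact List.mem_cons_self)]

theorem gg_count_out {S : List ℕ} (g : ℕ → ℕ) {c : ℕ} (hc : c ∉ S) : (GG S g).count c = 0 := by
  rw [List.count_eq_zero]
  intro h
  unfold GG at h
  obtain ⟨x, hx, h1⟩ := List.mem_flatMap.1 h
  exact hc ((List.mem_replicate.1 h1).2 ▸ hx)

theorem gg_mem {S : List ℕ} {g : ℕ → ℕ} {c : ℕ} (h : c ∈ GG S g) : c ∈ S := by
  by_contra hc
  exact absurd (gg_count_out g hc) (by
    have := List.count_pos_iff.2 h
    omega)

theorem gg_perm {S : List ℕ} {x : ℕ} (hx : x ∈ S) (g : ℕ → ℕ) :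
    (GG S g).Perm (List.replicate (g x) x ++ GG (S.erase x) g) := by
  have h := (List.perm_cons_erase hx).flatMap_right (fun x => List.replicate (g x) x)
  simpa [GG] using h

/-- the word around the light letter -/
def U (n : ℕ) (A D S : List ℕ) (a : ℕ) (f : ℕ → ℕ) : List ℕ :=
  A ++ (GG S (fun x => n + f x) ++ a :: (GG S (fun x => n + (n - 1) * f x) ++ D))

theorem U_congr {n : ℕ} {A D S : List ℕ} {a : ℕ} {f g : ℕ → ℕ} (h : ∀ x ∈ S, f x = g x) :
    U n A D S a f = U n A D S a g := by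
  have h4 : ∀ (f' g' : ℕ → ℕ), (∀ y ∈ S, f' y = g' y) → GG S f' = GG S g' := by
    intro f' g' hfg
    unfold GG
    apply List.flatMap_congr
    intro y hy
    rw [hfg y hy]
  unfold U
  rw [h4 (fun x => n + f x) (fun x => n + g x) (fun y hy => by simp only [h y hy]),
    h4 (fun x => n + (n - 1) * f x) (fun x => n + (n - 1) * g x)
      (fun y hy => by simp only [h y hy])]

/-- one letter in normal position -/
def V (n : ℕ) (A D S : List ℕ) (a x : ℕ) (f : ℕ → ℕ) : List ℕ :=
  A ++ (GG (S.erase x) (fun x => n + f x) ++ (List.replicate (n + f x) x ++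
    a :: (List.replicate (n + (n - 1) * f x) x ++
      (GG (S.erase x) (fun x => n + (n - 1) * f x) ++ D))))

theorem toV (hPRM : PrmStmt) {n : ℕ} {β : FIC} (hBG : BG n (RR β)) {H pre suf A D S : List ℕ}
    {a x : ℕ} {f : ℕ → ℕ} (hSH : ∀ y ∈ S, y ∈ H) (hx : x ∈ S)
    (hok : Ok1 H pre suf (U n A D S a f)) :
    Ok1 H pre suf (V n A D S a x f) ∧
      RR β (Wd pre suf (U n A D S a f)) (Wd pre suf (V n A D S a x f)) := by
  have p1 : (GG S (fun x => n + f x)).Perm
      (GG (S.erase x) (fun x => n + f x) ++ List.replicate (n + f x) x) :=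
    (gg_perm hx _).trans List.perm_append_comm
  obtain ⟨o1, r1⟩ := hPRM n β hBG H pre suf A _ _
    (a :: (GG S (fun x => n + (n - 1) * f x) ++ D)) hok
    (fun c hc => hSH c (gg_mem hc)) p1
  have e1 : A ++ (GG (S.erase x) (fun x => n + f x) ++ List.replicate (n + f x) x ++
      a :: (GG S (fun x => n + (n - 1) * f x) ++ D)) =
      (A ++ (GG (S.erase x) (fun x => n + f x) ++ (List.replicate (n + f x) x ++ [a]))) ++
        (GG S (fun x => n + (n - 1) * f x) ++ D) := by simp
  rw [e1] at o1 r1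
  obtain ⟨o2, r2⟩ := hPRM n β hBG H pre suf _ _ _ D o1 (fun c hc => hSH c (gg_mem hc))
    (gg_perm hx (fun x => n + (n - 1) * f x))
  have e2 : (A ++ (GG (S.erase x) (fun x => n + f x) ++ (List.replicate (n + f x) x ++ [a]))) ++
      (List.replicate (n + (n - 1) * f x) x ++ GG (S.erase x) (fun x => n + (n - 1) * f x) ++ D) =
      V n A D S a x f := by simp [V]
  rw [e2] at o2 r2
  exact ⟨o2, β.trans r1 r2⟩

/-- `Ok1` depends only on the numbers -/
theorem ok1_of' {H pre suf l l' : List ℕ} (h : Ok1 H pre suf l)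
    (h1 : ∀ x ∈ H, 2 ≤ l'.count x) (h2 : ∀ a, a ∉ H → l'.count a = l.count a) :
    Ok1 H pre suf l' := by
  refine ⟨h.nd, h1, fun a ha haH => ?_⟩
  have h3 : 1 ≤ l'.count a := List.one_le_count_iff.2 ha
  rw [h2 a haH] at h3
  have h4 := h.lt a (List.one_le_count_iff.1 h3) haH
  rw [h2 a haH]
  exact h4

theorem gg_count {S : List ℕ} (hS : S.Nodup) (g : ℕ → ℕ) {x : ℕ} (hx : x ∈ S) :
    (GG S g).count x = g x := by
  rw [(gg_perm hx g).count_eq, List.count_append, List.count_replicate_self,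
    gg_count_out g (hS.not_mem_erase), Nat.add_zero]

theorem U_ok {n : ℕ} (hn : 1 ≤ n) {H pre suf A D S : List ℕ} {a : ℕ} {f g : ℕ → ℕ}
    (hS : S.Nodup) (hSH : ∀ y ∈ S, y ∈ H) (hok : Ok1 H pre suf (U n A D S a f)) :
    Ok1 H pre suf (U n A D S a g) := by
  refine ok1_of' hok ?_ ?_
  · intro x hx
    by_cases hxS : x ∈ S
    · unfold U
      simp only [List.count_append, List.count_cons, gg_count hS _ hxS]
      omega
    · have h := hok.hv x hx
      unfold U at h ⊢
      simp only [List.count_append, List.count_cons, gg_count_out _ hxS] at h ⊢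
      omega
  · intro c hc
    have hcS : c ∉ S := fun h => hc (hSH c h)
    unfold U
    simp only [List.count_append, List.count_cons, gg_count_out _ hcS]

/-- change of one label -/
theorem chg_one (hPRM : PrmStmt) {n : ℕ} {β η : FIC} (hBG : BG n (RR β)) (hβη : β ≤ η)
    {H pre suf A D S : List ℕ} {a x : ℕ} {f g : ℕ → ℕ} (hS : S.Nodup)
    (hSH : ∀ y ∈ S, y ∈ H) (hx : x ∈ S) (hfg : ∀ y, y ≠ x → f y = g y)
    (hc : CRo n η H pre suf x a (f x) (g x)) (hok : Ok1 H pre suf (U n A D S a f)) :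
    RR η (Wd pre suf (U n A D S a f)) (Wd pre suf (U n A D S a g)) := by
  obtain ⟨o1, r1⟩ := toV hPRM hBG hSH hx hok
  obtain ⟨_, r2⟩ := toV hPRM hBG hSH hx (U_ok hBG.pos (g := g) hS hSH hok)
  have hne : ∀ y ∈ S.erase x, f y = g y := by
    intro y hy
    apply hfg
    rintro rfl
    exact hS.not_mem_erase hy
  have h4 : ∀ (f' g' : ℕ → ℕ), (∀ y ∈ S.erase x, f' y = g' y) →
      GG (S.erase x) f' = GG (S.erase x) g' := by
    intro f' g' hfg
    unfold GG
    apply List.flatMap_congr
    intro y hy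
    rw [hfg y hy]
  have h5 := h4 (fun x => n + f x) (fun x => n + g x) (fun y hy => by simp only [hne y hy])
  have h6 := h4 (fun x => n + (n - 1) * f x) (fun x => n + (n - 1) * g x)
    (fun y hy => by simp only [hne y hy])
  have e1 : V n A D S a x f = (A ++ GG (S.erase x) (fun x => n + f x)) ++
      (List.replicate (n + f x) x ++ a :: (List.replicate (n + (n - 1) * f x) x ++
        (GG (S.erase x) (fun x => n + (n - 1) * f x) ++ D))) := by simp [V]
  have e2 : V n A D S a x g = (A ++ GG (S.erase x) (fun x => n + f x)) ++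
      (List.replicate (n + g x) x ++ a :: (List.replicate (n + (n - 1) * g x) x ++
        (GG (S.erase x) (fun x => n + (n - 1) * f x) ++ D))) := by
    rw [h5, h6]
    simp [V]
  have r3 := hc _ _ (e1 ▸ o1)
  rw [← e1, ← e2] at r3
  exact η.trans (η.trans (hβη _ _ r1) r3) (η.symm (hβη _ _ r2))

theorem chg (hPRM : PrmStmt) {n : ℕ} {β η : FIC} (hBG : BG n (RR β)) (hβη : β ≤ η)
    {H pre suf A D S : List ℕ} {a : ℕ} (hS : S.Nodup) (hSH : ∀ y ∈ S, y ∈ H) :
    ∀ (L : List ℕ) (f g : ℕ → ℕ), (∀ y, y ∉ L → y ∈ S → f y = g y) →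
      (∀ y ∈ S, CRo n η H pre suf y a (f y) (g y)) → Ok1 H pre suf (U n A D S a f) →
        RR η (Wd pre suf (U n A D S a f)) (Wd pre suf (U n A D S a g))
  | [], f, g, h, _, _ => by
    rw [U_congr (fun x hx => h x (List.not_mem_nil) hx)]
    exact RR.refl _
  | x :: L, f, g, h, hc, hok => by
    have h1 : RR η (Wd pre suf (U n A D S a f))
        (Wd pre suf (U n A D S a (Function.update f x (g x)))) := by
      by_cases hx : x ∈ S
      · refine chg_one hPRM hBG hβη hS hSH hx (fun y hy => ?_) ?_ hok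
        · rw [Function.update_of_ne hy]
        · rw [Function.update_self]
          exact hc x hx
      · rw [U_congr (g := Function.update f x (g x)) (f := f) (fun y hy => ?_)]
        · exact RR.refl _
        · rw [Function.update_of_ne]
          rintro rfl
          exact hx hy
    refine η.trans h1 (chg hPRM hBG hβη hS hSH L (Function.update f x (g x)) g ?_ ?_
      (U_ok hBG.pos hS hSH hok))
    · intro y hy hyS
      by_cases hyx : y = x
      · subst hyx
        rw [Function.update_self]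
      · rw [Function.update_of_ne hyx]
        exact h y (fun h' => by
          rcases List.mem_cons.1 h' with h'' | h''
          · exact hyx h''
          · exact hy h'') hyS
    · intro y hyS
      by_cases hyx : y = x
      · subst hyx
        rw [Function.update_self]
        intro A' D' _
        exact RR.refl _
      · rw [Function.update_of_ne hyx]
        exact hc y hyS

/-- labels of one light letter -/
theorem lab_one (hPRM : PrmStmt) (hRAP : RapStmt) (hROK : RokStmt) {n : ℕ} {β η : FIC}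
    (hBG : BG n (RR β)) (hβη : β ≤ η) {H pre suf T : List ℕ} (hH : H.Nodup)
    (hT : Tk H pre suf T) {Λ Λ' : ℕ → ℕ → ℕ} {N : ℕ → ℕ} {a : ℕ}
    (h : ∀ b, b ≠ a → ∀ y, Λ y b = Λ' y b)
    (hc : 3 * a ∈ T → ∀ x ∈ H, CRo n η H pre suf x a (Λ x a) (Λ' x a)) :
    RR η (Wd pre suf (real n H Λ N O0 T)) (Wd pre suf (real n H Λ' N O0 T)) := by
  by_cases ha : 3 * a ∈ T
  swap
  · rw [real_congr (Λ' := Λ') (N' := N) T O0 (fun b hb y _ => ?_) (fun _ _ => rfl)]
    · exact RR.refl _
    · refine h b (fun hba => ha ?_) y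
      rw [← hba]
      exact hb
  obtain ⟨T1, T2, rfl⟩ := List.append_of_mem ha
  have hnd := List.nodup_append.1 hT.nd
  have hn1 : 3 * a ∉ T1 := fun h' => hnd.2.2 _ h' _ List.mem_cons_self rfl
  have hn2 : 3 * a ∉ T2 := (List.nodup_cons.1 hnd.2.1).1
  have hne : ∀ (T' : List ℕ), 3 * a ∉ T' → ∀ b, 3 * b ∈ T' → ∀ y ∈ H, Λ y b = Λ' y b := by
    intro T' hT' b hb y _
    refine h b (fun hba => hT' ?_) y
    rw [← hba]
    exact hb
  have e0 : ∀ (M : ℕ → ℕ → ℕ), real n H M N O0 (T1 ++ (3 * a) :: T2) =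
      U n (real n H M N O0 T1) (real n H M N (opn O0 T1) T2) (H.filter (opn O0 T1)) a
        (fun x => M x a) := by
    intro M
    have e1 : 3 * a / 3 = a := Nat.mul_div_cancel_left a (by norm_num)
    rw [hRAP.1]
    simp only [real, outL, Nat.mul_mod_right, if_true, e1, List.append_assoc, List.cons_append, U]
  have hok := (hROK n H Λ N hBG.pos hH).1 pre suf _ hT
  rw [e0 Λ] at hok
  rw [e0 Λ, e0 Λ', ← real_congr (Λ' := Λ') (N' := N) T1 O0 (hne T1 hn1) (fun _ _ => rfl),
    ← real_congr (Λ' := Λ') (N' := N) T2 (opn O0 T1) (hne T2 hn2) (fun _ _ => rfl)]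
  exact chg hPRM hBG hβη (hH.filter _) (fun y hy => (List.mem_filter.1 hy).1)
    (H.filter (opn O0 T1)) _ _ (fun y hy hy' => absurd hy' hy)
    (fun y hy => hc ha y (List.mem_filter.1 hy).1) hok

theorem lab (hPRM : PrmStmt) (hRAP : RapStmt) (hROK : RokStmt) {n : ℕ} {β η : FIC}
    (hBG : BG n (RR β)) (hβη : β ≤ η) {H pre suf T : List ℕ} (hH : H.Nodup)
    (hT : Tk H pre suf T) {N : ℕ → ℕ} : ∀ (L : List ℕ) (Λ Λ' : ℕ → ℕ → ℕ),
    (∀ b, b ∉ L → 3 * b ∈ T → ∀ y ∈ H, Λ y b = Λ' y b) →
    (∀ x ∈ H, ∀ a, 3 * a ∈ T → CRo n η H pre suf x a (Λ x a) (Λ' x a)) →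
    RR η (Wd pre suf (real n H Λ N O0 T)) (Wd pre suf (real n H Λ' N O0 T))
  | [], Λ, Λ', h, _ => by
    rw [real_congr (Λ' := Λ') (N' := N) T O0 (fun b hb y hy => h b List.not_mem_nil hb y hy)
      (fun _ _ => rfl)]
    exact RR.refl _
  | a :: L, Λ, Λ', h, hc => by
    have h1 : RR η (Wd pre suf (real n H Λ N O0 T))
        (Wd pre suf (real n H (fun y b => if b = a then Λ' y b else Λ y b) N O0 T)) := by
      refine lab_one hPRM hRAP hROK hBG hβη hH hT (a := a) (fun b hb y => ?_)
        (fun ha x hx => ?_)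
      · simp only [if_neg hb]
      · simp only [if_true]
        exact hc x hx a ha
    refine η.trans h1 (lab hPRM hRAP hROK hBG hβη hH hT L _ Λ' ?_ ?_)
    · intro b hb hbT y hy
      by_cases hba : b = a
      · simp only [if_pos hba]
      · simp only [if_neg hba]
        exact h b (fun h' => by
          rcases List.mem_cons.1 h' with h'' | h''
          · exact hba h''
          · exact hb h'') hbT y hy
    · intro x hx b hb
      by_cases hba : b = a
      · simp only [if_pos hba]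
        intro A' D' _
        exact RR.refl _
      · simp only [if_neg hba]
        exact hc x hx b hb

/-- one total -/
theorem tot_one (hEXL : ExlStmt) (hRAP : RapStmt) (hROK : RokStmt) {n : ℕ} {β : FIC}
    (hBG : BG n (RR β)) {H pre suf T : List ℕ} (hH : H.Nodup)
    (hT : Tk H pre suf T) {Λ : ℕ → ℕ → ℕ} {N N' : ℕ → ℕ} {x : ℕ}
    (h : ∀ y, y ≠ x → N y = N' y) (hc : x ∈ H → N x ≡ N' x [MOD n]) :
    RR β (Wd pre suf (real n H Λ N O0 T)) (Wd pre suf (real n H Λ N' O0 T)) := by
  by_cases ha : 3 * x + 2 ∈ T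
  swap
  · rw [real_congr (Λ' := Λ) (N' := N') T O0 (fun _ _ _ _ => rfl) (fun y hy => ?_)]
    · exact RR.refl _
    · refine h y (fun hyx => ha ?_)
      rw [← hyx]
      exact hy
  have hxH : x ∈ H := by
    rcases hT.lt _ ha with h1 | h1
    · omega
    · have h2 : (3 * x + 2) / 3 = x := by omega
      rw [h2] at h1
      exact h1.2
  have hn := hBG.pos
  obtain ⟨T1, T2, rfl⟩ := List.append_of_mem ha
  have hnd := List.nodup_append.1 hT.nd
  have hn1 : 3 * x + 2 ∉ T1 := fun h' => hnd.2.2 _ h' _ List.mem_cons_self rfl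
  have hn2 : 3 * x + 2 ∉ T2 := (List.nodup_cons.1 hnd.2.1).1
  have hne : ∀ (T' : List ℕ), 3 * x + 2 ∉ T' → ∀ y, 3 * y + 2 ∈ T' → N y = N' y := by
    intro T' hT' y hy
    refine h y (fun hyx => hT' ?_)
    rw [← hyx]
    exact hy
  have hx1 : 3 * x + 1 ∈ T1 := pre_mem' hT.nd (hT.hv x hxH)
  have e0 : ∀ (M : ℕ → ℕ) (e : ℕ), n + M x = e + 1 →
      real n H Λ M O0 (T1 ++ (3 * x + 2) :: T2) =
      real n H Λ M O0 T1 ++ (List.replicate e x ++ x ::
        real n H Λ M (Function.update (opn O0 T1) x false) T2) := by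
    intro M e he
    have e1 : (3 * x + 2) / 3 = x := by omega
    have e2 : (3 * x + 2) % 3 = 2 := by omega
    rw [hRAP.1]
    simp only [real, e1, e2, he]
    rw [if_neg (by norm_num), if_neg (by norm_num), if_neg (by norm_num),
      List.replicate_succ']
    simp
  obtain ⟨e, he⟩ : ∃ e, n + N x = e + 1 := ⟨n + N x - 1, by omega⟩
  obtain ⟨e', he'⟩ : ∃ e', n + N' x = e' + 1 := ⟨n + N' x - 1, by omega⟩
  have hmod : e ≡ e' [MOD n] := by
    have h1 : e + 1 ≡ e' + 1 [MOD n] := by
      rw [← he, ← he']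
      exact (hc hxH).add_left n
    exact Nat.ModEq.add_right_cancel' 1 h1
  have hok := (hROK n H Λ N hn hH).1 pre suf _ hT
  rw [e0 N e he] at hok
  rw [e0 N e he, e0 N' e' he',
    ← real_congr (Λ' := Λ) (N' := N') T1 O0 (fun _ _ _ _ => rfl) (hne T1 hn1),
    ← real_congr (Λ' := Λ) (N' := N') T2 _ (fun _ _ _ _ => rfl) (hne T2 hn2)]
  exact (hEXL n β hBG H pre suf _ _ x e e' hok hxH
    ((hROK n H Λ N hn hH).2.2.1 T1 O0 x hx1) List.mem_cons_self hmod).2

theorem tot (hEXL : ExlStmt) (hRAP : RapStmt) (hROK : RokStmt) {n : ℕ} {β : FIC}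
    (hBG : BG n (RR β)) {H pre suf T : List ℕ} (hH : H.Nodup)
    (hT : Tk H pre suf T) {Λ : ℕ → ℕ → ℕ} : ∀ (L : List ℕ) (N N' : ℕ → ℕ),
    (∀ y, y ∉ L → 3 * y + 2 ∈ T → N y = N' y) → (∀ y ∈ H, N y ≡ N' y [MOD n]) →
    RR β (Wd pre suf (real n H Λ N O0 T)) (Wd pre suf (real n H Λ N' O0 T))
  | [], N, N', h, _ => by
    rw [real_congr (Λ' := Λ) (N' := N') T O0 (fun _ _ _ _ => rfl)
      (fun y hy => h y List.not_mem_nil hy)]
    exact RR.refl _
  | x :: L, N, N', h, hc => by
    have h1 : RR β (Wd pre suf (real n H Λ N O0 T))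
        (Wd pre suf (real n H Λ (Function.update N x (N' x)) O0 T)) := by
      refine tot_one hEXL hRAP hROK hBG hH hT (x := x) (fun y hy => ?_) (fun hx => ?_)
      · rw [Function.update_of_ne hy]
      · rw [Function.update_self]
        exact hc x hx
    refine β.trans h1 (tot hEXL hRAP hROK hBG hH hT L _ N' ?_ ?_)
    · intro y hy hyT
      by_cases hyx : y = x
      · subst hyx
        rw [Function.update_self]
      · rw [Function.update_of_ne hyx]
        exact h y (fun h' => by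
          rcases List.mem_cons.1 h' with h'' | h''
          · exact hyx h''
          · exact hy h'') hyT
    · intro y hy
      by_cases hyx : y = x
      · subst hyx
        rw [Function.update_self]
      · rw [Function.update_of_ne hyx]
        exact hc y hy

theorem rt5 (hPRM : PrmStmt) (hEXL : ExlStmt) (_hEXS : ExsStmt) (hRAP : RapStmt)
    (hROK : RokStmt) : Rt5Stmt := by
  intro n β η hBG hβη H pre suf T Λ Λ' N N' hH hT hN hC
  have h1 := lab hPRM hRAP hROK hBG hβη hH hT (N := N) (T.map (fun t => t / 3)) Λ Λ'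
    (fun b hb hbT => absurd (List.mem_map.2 ⟨3 * b, hbT, by omega⟩) hb) hC
  have h2 := tot hEXL hRAP hROK hBG hH hT (Λ := Λ') (T.map (fun t => t / 3)) N N'
    (fun y hy hyT => absurd (List.mem_map.2 ⟨3 * y + 2, hyT, by omega⟩) hy) hN
  exact η.trans h1 (hβη _ _ h2)

end Pool.Agent.MWGR.H98
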